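import Mathlib

set_option autoImplicit false

/-! Second order expansion of `log ∑ pᵢ exp vᵢ` with an error of third order. -/

namespace Pool.Agent.Helper51.Bmoa

open Finset

theorem exp_sub (x z : ℝ) (hx : |x| ≤ z) (hz : z ≤ 1) :
    |Real.exp x - 1 - x - x ^ 2 / 2| ≤ z ^ 3 := by
  have h := Real.exp_bound (x := x) (hx.trans hz) (n := 3) (by norm_num)
  have e : ∑ m ∈ range 3, x ^ m / (m.factorial : ℝ) = 1 + x + x ^ 2 / 2 := by
    simp [sum_range_succ, Nat.factorial]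
  rw [e] at h
  have h2 : |x| ^ 3 * (((3 : ℕ).succ : ℝ) / (((3 : ℕ).factorial : ℝ) * ((3 : ℕ) : ℝ))) ≤ z ^ 3 := by
    have h3 : |x| ^ 3 ≤ z ^ 3 := pow_le_pow_left₀ (abs_nonneg x) hx 3
    have h4 : (((3 : ℕ).succ : ℝ) / (((3 : ℕ).factorial : ℝ) * ((3 : ℕ) : ℝ))) ≤ 1 := by
      norm_num [Nat.factorial]
    have h5 : 0 ≤ |x| ^ 3 := by positivity
    nlinarith
  have e2 : Real.exp x - 1 - x - x ^ 2 / 2 = Real.exp x - (1 + x + x ^ 2 / 2) := by ring
  rw [e2]
  exact h.trans h2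

theorem log_sub (w z : ℝ) (hw : |w| ≤ 2 * z) (hz : z ≤ 1 / 4) (h0 : 0 ≤ z) :
    |Real.log (1 + w) - w + w ^ 2 / 2| ≤ 16 * z ^ 3 := by
  have hw1 : |(-w)| < 1 := by rw [abs_neg]; linarith
  have h := Real.abs_log_sub_add_sum_range_le hw1 2
  have e : (∑ i ∈ range 2, (-w) ^ (i + 1) / ((i : ℝ) + 1)) + Real.log (1 - (-w)) =
      Real.log (1 + w) - w + w ^ 2 / 2 := by
    simp only [sum_range_succ, sum_range_zero]
    push_cast
    rw [sub_neg_eq_add]
    ring
  rw [e] at h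
  refine h.trans ?_
  rw [abs_neg]
  have h1 : 0 < 1 - |w| := by rw [abs_neg] at hw1; linarith
  rw [div_le_iff₀ h1]
  have h2 : |w| ^ (2 + 1) ≤ (2 * z) ^ 3 := pow_le_pow_left₀ (abs_nonneg w) hw 3
  have h3 : 1 / 2 ≤ 1 - |w| := by linarith
  have h4 : 0 ≤ z ^ 3 := by positivity
  nlinarith

/-- `log ∑ pᵢ exp vᵢ` up to order three. -/
theorem log_sum_exp {ι : Type} [Fintype ι] (p v : ι → ℝ) (z : ℝ) (hp : ∀ i, 0 ≤ p i)
    (hp1 : ∑ i, p i = 1) (hv : ∀ i, |v i| ≤ z) :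
    |Real.log (∑ i, p i * Real.exp (v i)) - ∑ i, p i * v i -
      (∑ i, p i * v i ^ 2 - (∑ i, p i * v i) ^ 2) / 2| ≤ 40 * z ^ 3 := by
  have hz0 : 0 ≤ z := by
    by_contra hcon
    push Not at hcon
    have : ∀ i, False := fun i => by
      have := hv i
      have := abs_nonneg (v i)
      linarith
    have h1 : ∑ i, p i = 0 := sum_eq_zero fun i _ => (this i).elim
    rw [h1] at hp1
    norm_num at hp1
  have hbd : ∀ f : ι → ℝ, ∀ c : ℝ, (∀ i, |f i| ≤ c) → |∑ i, p i * f i| ≤ c := by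
    intro f c hf
    calc |∑ i, p i * f i| ≤ ∑ i, |p i * f i| := abs_sum_le_sum_abs _ _
      _ ≤ ∑ i, p i * c := by
          apply sum_le_sum
          intro i _
          rw [abs_mul, abs_of_nonneg (hp i)]
          exact mul_le_mul_of_nonneg_left (hf i) (hp i)
      _ = c := by rw [← sum_mul, hp1, one_mul]
  set m := ∑ i, p i * v i with hm
  set q := ∑ i, p i * v i ^ 2 with hq
  have hmz : |m| ≤ z := hbd v z hv
  have hq0 : 0 ≤ q := sum_nonneg fun i _ => mul_nonneg (hp i) (sq_nonneg _)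
  have hqz : q ≤ z ^ 2 := by
    have h1 := hbd (fun i => v i ^ 2) (z ^ 2) (fun i => by
      rw [abs_of_nonneg (sq_nonneg _), ← sq_abs]
      exact pow_le_pow_left₀ (abs_nonneg _) (hv i) 2)
    exact (le_abs_self _).trans h1
  rcases le_or_gt z (1 / 4) with hz | hz
  · set S := ∑ i, p i * Real.exp (v i) with hS
    have hR : |S - 1 - m - q / 2| ≤ z ^ 3 := by
      have h1 := hbd (fun i => Real.exp (v i) - 1 - v i - v i ^ 2 / 2) (z ^ 3) (fun i =>
        exp_sub (v i) z (hv i) (by linarith))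
      have e : ∑ i, p i * (Real.exp (v i) - 1 - v i - v i ^ 2 / 2) = S - 1 - m - q / 2 := by
        have e1 : ∀ i, p i * (Real.exp (v i) - 1 - v i - v i ^ 2 / 2) =
            p i * Real.exp (v i) - p i - p i * v i - (p i * v i ^ 2) / 2 := fun i => by ring
        rw [sum_congr rfl fun i _ => e1 i, sum_sub_distrib, sum_sub_distrib, sum_sub_distrib, hp1,
          ← sum_div]
      rwa [e] at h1
    have hw : |S - 1| ≤ 2 * z := by
      rw [abs_le] at hR hmz ⊢
      have h3 : z ^ 3 ≤ z / 16 := by nlinarith [sq_nonneg z]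
      have h4 : z ^ 2 ≤ z / 4 := by nlinarith
      constructor <;> linarith [hR.1, hR.2, hmz.1, hmz.2]
    have hl := log_sub (S - 1) z hw hz hz0
    rw [show 1 + (S - 1) = S by ring] at hl
    have hsq : |(S - 1) ^ 2 - m ^ 2| ≤ 3 * z ^ 3 := by
      have e : (S - 1) ^ 2 - m ^ 2 = (S - 1 - m) * (S - 1 + m) := by ring
      rw [e, abs_mul]
      have h1 : |S - 1 - m| ≤ z ^ 2 := by
        rw [abs_le] at hR ⊢
        have h3 : z ^ 3 ≤ z ^ 2 / 4 := by nlinarith [sq_nonneg z]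
        constructor <;> linarith [hR.1, hR.2, sq_nonneg z]
      have h2 : |S - 1 + m| ≤ 3 * z := by
        have := abs_add_le (S - 1) m
        linarith
      calc |S - 1 - m| * |S - 1 + m| ≤ z ^ 2 * (3 * z) :=
            mul_le_mul h1 h2 (abs_nonneg _) (sq_nonneg _)
        _ = 3 * z ^ 3 := by ring
    rw [abs_le] at hl hR hsq ⊢
    constructor <;> nlinarith [hl.1, hl.2, hR.1, hR.2, hsq.1, hsq.2, pow_nonneg hz0 3]
  · have hlog : |Real.log (∑ i, p i * Real.exp (v i))| ≤ z := by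
      have hlo : Real.exp (-z) ≤ ∑ i, p i * Real.exp (v i) := by
        calc Real.exp (-z) = ∑ i, p i * Real.exp (-z) := by rw [← sum_mul, hp1, one_mul]
          _ ≤ _ := sum_le_sum fun i _ => mul_le_mul_of_nonneg_left
              (Real.exp_le_exp.2 (abs_le.1 (hv i)).1) (hp i)
      have hhi : ∑ i, p i * Real.exp (v i) ≤ Real.exp z := by
        calc ∑ i, p i * Real.exp (v i) ≤ ∑ i, p i * Real.exp z :=
              sum_le_sum fun i _ => mul_le_mul_of_nonneg_left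
              (Real.exp_le_exp.2 (abs_le.1 (hv i)).2) (hp i)
          _ = _ := by rw [← sum_mul, hp1, one_mul]
      have hpos : 0 < ∑ i, p i * Real.exp (v i) := (Real.exp_pos _).trans_le hlo
      rw [abs_le]
      constructor
      · rw [Real.le_log_iff_exp_le hpos]; exact hlo
      · rw [Real.log_le_iff_le_exp hpos]; exact hhi
    have hm2 : m ^ 2 ≤ z ^ 2 := by
      rw [← sq_abs]
      exact pow_le_pow_left₀ (abs_nonneg _) hmz 2
    have h3 : z ^ 3 ≥ z ^ 2 / 4 := by nlinarith [sq_nonneg z]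
    have h4 : z ^ 2 ≥ z / 4 := by nlinarith
    rw [abs_le] at hlog hmz ⊢
    constructor <;> nlinarith [hlog.1, hlog.2, hmz.1, hmz.2, sq_nonneg m]

/-- variance as a double sum -/
theorem var_eq {ι : Type} [Fintype ι] (p v : ι → ℝ) (hp1 : ∑ i, p i = 1) :
    ∑ i, p i * v i ^ 2 - (∑ i, p i * v i) ^ 2 = (∑ i, ∑ j, p i * p j * (v i - v j) ^ 2) / 2 := by
  have h1 : ∑ i, ∑ j, p i * p j * (v i - v j) ^ 2 =
      ∑ i, ∑ j, (p i * v i ^ 2 * p j + p i * (p j * v j ^ 2) - 2 * (p i * v i * (p j * v j))) :=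
    sum_congr rfl fun i _ => sum_congr rfl fun j _ => by ring
  have h2 : ∀ i, ∑ j, (p i * v i ^ 2 * p j + p i * (p j * v j ^ 2) -
      2 * (p i * v i * (p j * v j))) =
      p i * v i ^ 2 + p i * (∑ j, p j * v j ^ 2) - 2 * (p i * v i * ∑ j, p j * v j) := by
    intro i
    rw [sum_sub_distrib, sum_add_distrib, ← mul_sum, ← mul_sum, ← mul_sum, ← mul_sum, hp1,
      mul_one]
  rw [h1, sum_congr rfl fun i _ => h2 i, sum_sub_distrib, sum_add_distrib, ← sum_mul, ← mul_sum,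
    ← sum_mul, hp1]
  ring

end Pool.Agent.Helper51.Bmoa
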