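import Mathlib

set_option autoImplicit false

namespace Pool.Agent.Helper51.Bmoa

open MeasureTheory ProbabilityTheory

/-- the value of the Gaussian linear form with coefficients `a` -/
noncomputable def gl {κ : Type} [Fintype κ] (a x : κ → ℝ) : ℝ := ∑ k, a k * x k

/-- standard Gaussian measure -/
noncomputable def gs (κ : Type) [Fintype κ] : Measure (κ → ℝ) := Measure.pi fun _ => gaussianReal 0 1

end Pool.Agent.Helper51.Bmoa
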