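import Mathlib
import Pool.Agent.Helper51.Bmoa.SFDefs

set_option autoImplicit false

/-! Moments, sums and linear images of the standard Gaussian measure on `κ → ℝ`. -/

namespace Pool.Agent.Helper51.Bmoa

open MeasureTheory ProbabilityTheory Finset
open scoped ENNReal NNReal

variable {ι κ κ' : Type} [Fintype ι] [Fintype κ] [Fintype κ']

instance instProbGs : IsProbabilityMeasure (gs κ) := by unfold gs; infer_instance

/-- the linear map with matrix `A` -/
noncomputable def T (A : ι → κ → ℝ) (x : κ → ℝ) : ι → ℝ := fun i => gl (A i) x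

theorem T_cont (A : ι → κ → ℝ) : Continuous (T A) := by
  unfold T gl
  fun_prop

theorem gl_cont (a : κ → ℝ) : Continuous (gl a) := by
  unfold gl
  fun_prop

theorem memLp_coord (k : κ) (p : ℝ≥0∞) (hp : p ≠ ∞) : MemLp (fun x : κ → ℝ => x k) p (gs κ) := by
  have h := (memLp_id_gaussianReal' (μ := 0) (v := 1) p hp).comp_measurePreserving
    (measurePreserving_eval (fun _ : κ => gaussianReal 0 1) k)
  exact h

theorem memLp_gl (a : κ → ℝ) (p : ℝ≥0∞) (hp : p ≠ ∞) : MemLp (gl a) p (gs κ) := by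
  unfold gl
  exact memLp_finset_sum _ fun k _ => (memLp_coord k p hp).const_mul (a k)

theorem memLp_T (A : ι → κ → ℝ) (p : ℝ≥0∞) (hp : p ≠ ∞) : MemLp (T A) p (gs κ) := by
  have h : MemLp (fun x => ∑ i, ‖gl (A i) x‖) p (gs κ) :=
    memLp_finset_sum _ fun i _ => (memLp_gl (A i) p hp).norm
  refine h.mono (T_cont A).aestronglyMeasurable (ae_of_all _ fun x => ?_)
  have h0 : 0 ≤ ∑ i, ‖gl (A i) x‖ := sum_nonneg fun i _ => norm_nonneg _
  rw [Real.norm_of_nonneg h0]
  rw [pi_norm_le_iff_of_nonneg h0]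
  intro i
  exact single_le_sum (f := fun i => ‖gl (A i) x‖) (fun i _ => norm_nonneg _) (mem_univ i)

theorem integrable_gl (a : κ → ℝ) : Integrable (gl a) (gs κ) :=
  memLp_one_iff_integrable.1 (memLp_gl a 1 (by simp))

theorem integrable_T_norm (A : ι → κ → ℝ) : Integrable (fun x => ‖T A x‖) (gs κ) :=
  (memLp_one_iff_integrable.1 (memLp_T A 1 (by simp))).norm

theorem integrable_T_norm3 (A : ι → κ → ℝ) : Integrable (fun x => ‖T A x‖ ^ 3) (gs κ) :=
  (memLp_T A 3 (by simp)).integrable_norm_pow (by norm_num)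

theorem integrable_gl2 (a : κ → ℝ) : Integrable (fun x => gl a x ^ 2) (gs κ) :=
  (memLp_gl a 2 (by simp)).integrable_sq

theorem integral_gl (a : κ → ℝ) : ∫ x, gl a x ∂(gs κ) = 0 := by
  unfold gl
  rw [integral_finset_sum _ fun k _ =>
    (memLp_one_iff_integrable.1 (memLp_coord k 1 (by simp))).const_mul (a k)]
  refine sum_eq_zero fun k _ => ?_
  rw [integral_const_mul]
  have h : ∫ x : κ → ℝ, x k ∂(gs κ) = ∫ y, y ∂(gaussianReal 0 1) := by
    have := (measurePreserving_eval (fun _ : κ => gaussianReal 0 1) k)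
    rw [← this.map_eq, integral_map (measurable_pi_apply k).aemeasurable (by fun_prop)]
    rfl
  rw [h, integral_id_gaussianReal, mul_zero]

theorem integral_gl2 (a : κ → ℝ) : ∫ x, gl a x ^ 2 ∂(gs κ) = ∑ k, a k ^ 2 := by
  have h1 : Var[gl a; gs κ] = ∑ k, a k ^ 2 := by
    have h := variance_sum_pi (μ := fun _ : κ => gaussianReal 0 1)
      (X := fun k y => a k * y)
      (fun k => (memLp_id_gaussianReal' (μ := 0) (v := 1) 2 (by simp)).const_mul (a k))
    have e : (∑ i, fun ω : κ → ℝ => a i * ω i) = gl a := by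
      funext x
      simp [gl]
    rw [e] at h
    unfold gs
    rw [h]
    refine sum_congr rfl fun k _ => ?_
    rw [variance_const_mul]
    have : Var[fun y : ℝ => y; gaussianReal 0 1] = 1 := by
      have := variance_id_gaussianReal (μ := 0) (v := 1)
      exact this
    rw [this, mul_one]
  rw [variance_of_integral_eq_zero (gl_cont a).aemeasurable (integral_gl a)] at h1
  exact h1

/-- sum of two independent Gaussians, one-dimensional -/
theorem map_one (s t r : ℝ) (h : s ^ 2 + t ^ 2 = r ^ 2) :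
    ((gaussianReal 0 1).prod (gaussianReal 0 1)).map (fun p : ℝ × ℝ => s * p.1 + t * p.2) =
      (gaussianReal 0 1).map (fun x => r * x) := by
  have e : (fun p : ℝ × ℝ => s * p.1 + t * p.2) =
      (fun p : ℝ × ℝ => p.1 + p.2) ∘ (Prod.map (fun x => s * x) (fun x => t * x)) := by
    funext p
    rfl
  rw [e, ← Measure.map_map (by fun_prop) (by fun_prop),
    ← Measure.map_prod_map _ _ (by fun_prop) (by fun_prop), gaussianReal_map_const_mul,
    gaussianReal_map_const_mul, gaussianReal_map_const_mul]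
  have h2 := gaussianReal_conv_gaussianReal (m₁ := s * 0) (m₂ := t * 0)
    (v₁ := .mk (s ^ 2) (sq_nonneg _) * 1) (v₂ := .mk (t ^ 2) (sq_nonneg _) * 1)
  rw [Measure.conv] at h2
  rw [h2]
  congr 1
  · ring
  · ext
    push_cast
    simpa using h

/-- sum of two independent Gaussians -/
theorem map_gs (s t r : ℝ) (h : s ^ 2 + t ^ 2 = r ^ 2) :
    ((gs κ).prod (gs κ)).map (fun p : (κ → ℝ) × (κ → ℝ) => s • p.1 + t • p.2) =
      (gs κ).map (fun x => r • x) := by
  have hmp := measurePreserving_arrowProdEquivProdArrow ℝ ℝ κ (fun _ => gaussianReal 0 1)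
    (fun _ => gaussianReal 0 1)
  have h1 : (gs κ).prod (gs κ) = (Measure.pi fun _ : κ => (gaussianReal 0 1).prod
      (gaussianReal 0 1)).map (MeasurableEquiv.arrowProdEquivProdArrow ℝ ℝ κ) := by
    rw [hmp.map_eq]
    rfl
  rw [h1, Measure.map_map (by fun_prop) (MeasurableEquiv.measurable _)]
  have e1 : (fun p : (κ → ℝ) × (κ → ℝ) => s • p.1 + t • p.2) ∘
      (MeasurableEquiv.arrowProdEquivProdArrow ℝ ℝ κ) =
      fun (x : κ → ℝ × ℝ) k => (fun p : ℝ × ℝ => s * p.1 + t * p.2) (x k) := by
    funext x k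
    simp [MeasurableEquiv.arrowProdEquivProdArrow, Equiv.arrowProdEquivProdArrow]
  have e2 : (fun x : κ → ℝ => r • x) = fun (x : κ → ℝ) k => (fun y => r * y) (x k) := by
    funext x k
    simp
  rw [e1, e2]
  unfold gs
  have i1 : SigmaFinite (((gaussianReal 0 1).prod (gaussianReal 0 1)).map
      (fun p : ℝ × ℝ => s * p.1 + t * p.2)) := by
    have := Measure.isProbabilityMeasure_map (μ := (gaussianReal 0 1).prod (gaussianReal 0 1))
      (f := fun p : ℝ × ℝ => s * p.1 + t * p.2) (by fun_prop)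
    infer_instance
  have i2 : SigmaFinite ((gaussianReal 0 1).map (fun x => r * x)) := by
    have := Measure.isProbabilityMeasure_map (μ := (gaussianReal 0 1))
      (f := fun x : ℝ => r * x) (by fun_prop)
    infer_instance
  have j1 := Measure.pi_map_pi (ι := κ) (μ := fun _ => (gaussianReal 0 1).prod (gaussianReal 0 1))
    (f := fun _ => fun p : ℝ × ℝ => s * p.1 + t * p.2) (hμ := fun _ => i1)
    (fun _ => by fun_prop)
  have j2 := Measure.pi_map_pi (ι := κ) (μ := fun _ => gaussianReal 0 1)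
    (f := fun _ => fun x : ℝ => r * x) (hμ := fun _ => i2)
    (fun _ => by fun_prop)
  rw [j1, j2, map_one s t r h]

end Pool.Agent.Helper51.Bmoa
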