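import Mathlib
import Pool.Agent.Helper51.Bmoa.SFGauss

set_option autoImplicit false

/-! The Gaussian averaging operators and their algebra. -/

namespace Pool.Agent.Helper51.Bmoa

open MeasureTheory ProbabilityTheory Finset
open scoped ENNReal NNReal

variable {ι κ κ' : Type} [Fintype ι] [Fintype κ] [Fintype κ']

/-- averaging over the Gaussian vector `s T_A x` -/
noncomputable def G (A : ι → κ → ℝ) (s : ℝ) (f : (ι → ℝ) → ℝ) (u : ι → ℝ) : ℝ :=
  ∫ x, f (u + s • T A x) ∂(gs κ)

theorem lip_le {f : (ι → ℝ) → ℝ} (hf : LipschitzWith 1 f) (u v : ι → ℝ) :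
    |f u - f v| ≤ ‖u - v‖ := by
  have := hf.norm_sub_le u v
  simpa using this

theorem lip_bd {f : (ι → ℝ) → ℝ} (hf : LipschitzWith 1 f) (u v : ι → ℝ) :
    |f (u + v)| ≤ |f u| + ‖v‖ := by
  have h := lip_le hf (u + v) u
  rw [add_sub_cancel_left] at h
  have h2 := abs_sub_abs_le_abs_sub (f (u + v)) (f u)
  linarith

theorem integrable_G (A : ι → κ → ℝ) (s : ℝ) {f : (ι → ℝ) → ℝ} (hf : LipschitzWith 1 f)
    (u : ι → ℝ) : Integrable (fun x => f (u + s • T A x)) (gs κ) := by
  have hc : Continuous (fun x => f (u + s • T A x)) :=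
    hf.continuous.comp (continuous_const.add ((T_cont A).const_smul s))
  have hb : Integrable (fun x => |f u| + |s| * ‖T A x‖) (gs κ) :=
    (integrable_const _).add ((integrable_T_norm A).const_mul _)
  refine hb.mono' hc.aestronglyMeasurable (ae_of_all _ fun x => ?_)
  have := lip_bd hf u (s • T A x)
  rw [norm_smul] at this
  exact this

theorem G_lip (A : ι → κ → ℝ) (s : ℝ) {f : (ι → ℝ) → ℝ} (hf : LipschitzWith 1 f) :
    LipschitzWith 1 (G A s f) := by
  refine LipschitzWith.of_dist_le_mul fun u v => ?_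
  rw [Real.dist_eq, NNReal.coe_one, one_mul, dist_eq_norm]
  unfold G
  rw [← integral_sub (integrable_G A s hf u) (integrable_G A s hf v)]
  calc |∫ x, (f (u + s • T A x) - f (v + s • T A x)) ∂(gs κ)|
      ≤ ∫ x, ‖u - v‖ ∂(gs κ) := by
        rw [← Real.norm_eq_abs]
        refine norm_integral_le_of_norm_le (integrable_const _) (ae_of_all _ fun x => ?_)
        have := lip_le hf (u + s • T A x) (v + s • T A x)
        rw [add_sub_add_right_eq_sub] at this
        exact this
    _ = ‖u - v‖ := by simp

theorem G_mono (A : ι → κ → ℝ) (s : ℝ) {f g : (ι → ℝ) → ℝ} (hf : LipschitzWith 1 f)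
    (hg : LipschitzWith 1 g) (c : ℝ) (h : ∀ u, f u ≤ g u + c) (u : ι → ℝ) :
    G A s f u ≤ G A s g u + c := by
  have e : G A s g u + c = ∫ x, (g (u + s • T A x) + c) ∂(gs κ) := by
    rw [integral_add (integrable_G A s hg u) (integrable_const c)]
    simp [G]
  rw [e]
  exact integral_mono (integrable_G A s hf u) ((integrable_G A s hg u).add (integrable_const c))
    fun x => h _

theorem G_comm (A : ι → κ → ℝ) (B : ι → κ' → ℝ) (s t : ℝ) {f : (ι → ℝ) → ℝ}
    (hf : LipschitzWith 1 f) (u : ι → ℝ) : G A s (G B t f) u = G B t (G A s f) u := by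
  unfold G
  have hint : Integrable (Function.uncurry fun (x : κ → ℝ) (y : κ' → ℝ) =>
      f (u + s • T A x + t • T B y)) ((gs κ).prod (gs κ')) := by
    have hc : Continuous (Function.uncurry fun (x : κ → ℝ) (y : κ' → ℝ) =>
        f (u + s • T A x + t • T B y)) := by
      refine hf.continuous.comp ?_
      exact (continuous_const.add (((T_cont A).comp continuous_fst).const_smul s)).add
        (((T_cont B).comp continuous_snd).const_smul t)
    have hb : Integrable (fun p : (κ → ℝ) × (κ' → ℝ) => |f u| + |s| * ‖T A p.1‖ +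
        |t| * ‖T B p.2‖) ((gs κ).prod (gs κ')) :=
      ((integrable_const _).add (((integrable_T_norm A).comp_fst _).const_mul _)).add
        (((integrable_T_norm B).comp_snd _).const_mul _)
    refine hb.mono' hc.aestronglyMeasurable (ae_of_all _ fun p => ?_)
    have h1 := lip_bd hf (u + s • T A p.1) (t • T B p.2)
    have h2 := lip_bd hf u (s • T A p.1)
    rw [norm_smul] at h1 h2
    simp only [Function.uncurry]
    rw [Real.norm_eq_abs]
    simp only [Real.norm_eq_abs] at h1 h2
    linarith
  have h := integral_integral_swap hint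
  rw [h]
  refine integral_congr_ae (ae_of_all _ fun y => ?_)
  refine integral_congr_ae (ae_of_all _ fun x => ?_)
  simp only
  congr 1
  abel

theorem T_add (A : ι → κ → ℝ) (x y : κ → ℝ) : T A (x + y) = T A x + T A y := by
  funext i
  simp [T, gl, mul_add, sum_add_distrib]

theorem T_smul (A : ι → κ → ℝ) (c : ℝ) (x : κ → ℝ) : T A (c • x) = c • T A x := by
  funext i
  simp only [T, gl, Pi.smul_apply, smul_eq_mul, mul_sum]
  exact sum_congr rfl fun k _ => by ring

theorem G_comp (A : ι → κ → ℝ) (s t r : ℝ) (hst : s ^ 2 + t ^ 2 = r ^ 2) {f : (ι → ℝ) → ℝ}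
    (hf : LipschitzWith 1 f) (u : ι → ℝ) : G A s (G A t f) u = G A r f u := by
  unfold G
  have hfc : Continuous fun z : κ → ℝ => f (u + T A z) :=
    hf.continuous.comp (continuous_const.add (T_cont A))
  have hint : Integrable (fun p : (κ → ℝ) × (κ → ℝ) =>
      f (u + s • T A p.1 + t • T A p.2)) ((gs κ).prod (gs κ)) := by
    have hc : Continuous (fun p : (κ → ℝ) × (κ → ℝ) =>
        f (u + s • T A p.1 + t • T A p.2)) := by
      refine hf.continuous.comp ?_
      exact (continuous_const.add (((T_cont A).comp continuous_fst).const_smul s)).add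
        (((T_cont A).comp continuous_snd).const_smul t)
    have hb : Integrable (fun p : (κ → ℝ) × (κ → ℝ) => |f u| + |s| * ‖T A p.1‖ +
        |t| * ‖T A p.2‖) ((gs κ).prod (gs κ)) :=
      ((integrable_const _).add (((integrable_T_norm A).comp_fst _).const_mul _)).add
        (((integrable_T_norm A).comp_snd _).const_mul _)
    refine hb.mono' hc.aestronglyMeasurable (ae_of_all _ fun p => ?_)
    have h1 := lip_bd hf (u + s • T A p.1) (t • T A p.2)
    have h2 := lip_bd hf u (s • T A p.1)
    rw [norm_smul] at h1 h2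
    rw [Real.norm_eq_abs]
    simp only [Real.norm_eq_abs] at h1 h2
    linarith
  have h := integral_prod _ hint
  simp only at h
  rw [← h]
  have e1 : ∫ p : (κ → ℝ) × (κ → ℝ), f (u + s • T A p.1 + t • T A p.2) ∂((gs κ).prod (gs κ)) =
      ∫ z, f (u + T A z) ∂(((gs κ).prod (gs κ)).map
        (fun p : (κ → ℝ) × (κ → ℝ) => s • p.1 + t • p.2)) := by
    rw [integral_map (by fun_prop) hfc.aestronglyMeasurable]
    refine integral_congr_ae (ae_of_all _ fun p => ?_)
    simp only [T_add, T_smul, add_assoc]
  rw [e1, map_gs s t r hst, integral_map (by fun_prop) hfc.aestronglyMeasurable]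
  refine integral_congr_ae (ae_of_all _ fun x => ?_)
  simp only [T_smul]

theorem G_zero (A : ι → κ → ℝ) (f : (ι → ℝ) → ℝ) : G A 0 f = f := by
  funext u
  simp [G]

theorem G_iter_lip (A : ι → κ → ℝ) (s : ℝ) {f : (ι → ℝ) → ℝ} (hf : LipschitzWith 1 f) (n : ℕ) :
    LipschitzWith 1 ((G A s)^[n] f) := by
  induction n with
  | zero => exact hf
  | succ n ih =>
    rw [Function.iterate_succ_apply']
    exact G_lip A s ih

theorem G_iter (A : ι → κ → ℝ) (s : ℝ) {f : (ι → ℝ) → ℝ} (hf : LipschitzWith 1 f) (n : ℕ) :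
    (G A s)^[n] f = G A (Real.sqrt n * s) f := by
  induction n with
  | zero => simp [G_zero]
  | succ n ih =>
    rw [Function.iterate_succ_apply', ih]
    funext u
    refine G_comp A s (Real.sqrt n * s) _ ?_ hf u
    rw [mul_pow, mul_pow, Real.sq_sqrt (by positivity), Real.sq_sqrt (by positivity)]
    push_cast
    ring

/-- comparison of iterates of two commuting averaging operators -/
theorem compare (A : ι → κ → ℝ) (B : ι → κ' → ℝ) (s : ℝ) {F : (ι → ℝ) → ℝ}
    (hF : LipschitzWith 1 F) (c : ℝ) (h : ∀ u, G B s F u ≤ G A s F u + c) (n : ℕ) (u : ι → ℝ) :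
    (G B s)^[n] F u ≤ (G A s)^[n] F u + n * c := by
  have hcomm : ∀ n : ℕ, G A s ((G B s)^[n] F) = (G B s)^[n] (G A s F) := by
    intro n
    induction n with
    | zero => rfl
    | succ n ih =>
      rw [Function.iterate_succ_apply', Function.iterate_succ_apply', ← ih]
      funext u
      exact G_comm A B s s (G_iter_lip B s hF n) u
  have hmono : ∀ n : ℕ, ∀ {f g : (ι → ℝ) → ℝ}, LipschitzWith 1 f → LipschitzWith 1 g →
      (∀ u, f u ≤ g u + c) → ∀ u, (G B s)^[n] f u ≤ (G B s)^[n] g u + c := by
    intro n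
    induction n with
    | zero => intro f g _ _ h u; exact h u
    | succ n ih =>
      intro f g hf hg h u
      rw [Function.iterate_succ_apply', Function.iterate_succ_apply']
      exact G_mono B s (G_iter_lip B s hf n) (G_iter_lip B s hg n) c (ih hf hg h) u
  induction n generalizing u with
  | zero => simp
  | succ n ih =>
    have h1 : (G B s)^[n + 1] F u ≤ (G B s)^[n] (G A s F) u + c := by
      rw [Function.iterate_succ_apply]
      exact hmono n (G_lip B s hF) (G_lip A s hF) h u
    have h2 : (G B s)^[n] (G A s F) u ≤ (G A s)^[n + 1] F u + n * c := by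
      rw [← hcomm, Function.iterate_succ_apply']
      exact G_mono A s (G_iter_lip B s hF n) (G_iter_lip A s hF n) _ ih u
    push_cast
    linarith

end Pool.Agent.Helper51.Bmoa
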