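import Mathlib
import Pool.Agent.Helper51.Bmoa.SFDefs
import Pool.Agent.Helper51.Bmoa.LogExp
import Pool.Agent.Helper51.Bmoa.SFGauss
import Pool.Agent.Helper51.Bmoa.SFSemi

set_option autoImplicit false

/-! The Sudakov-Fernique comparison inequality. -/

namespace Pool.Agent.Helper51.Bmoa

open MeasureTheory ProbabilityTheory Finset
open scoped ENNReal NNReal

variable {ι κ κ' : Type} [Fintype ι] [Nonempty ι] [Fintype κ] [Fintype κ']

/-- log-sum-exp -/
noncomputable def Z (u : ι → ℝ) : ℝ := Real.log (∑ i, Real.exp (u i))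

theorem sum_exp_pos (u : ι → ℝ) : 0 < ∑ i, Real.exp (u i) :=
  sum_pos (fun i _ => Real.exp_pos _) univ_nonempty

theorem Z_le (u v : ι → ℝ) : Z u ≤ Z v + ‖u - v‖ := by
  unfold Z
  rw [Real.log_le_iff_le_exp (sum_exp_pos u), Real.exp_add, Real.exp_log (sum_exp_pos v), sum_mul]
  refine sum_le_sum fun i _ => ?_
  rw [← Real.exp_add, Real.exp_le_exp]
  have h := norm_le_pi_norm (u - v) i
  rw [Pi.sub_apply, Real.norm_eq_abs] at h
  linarith [le_abs_self (u i - v i)]

theorem Z_lip : LipschitzWith 1 (Z : (ι → ℝ) → ℝ) := by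
  refine LipschitzWith.of_dist_le_mul fun u v => ?_
  rw [Real.dist_eq, NNReal.coe_one, one_mul, dist_eq_norm, abs_le]
  have h1 := Z_le u v
  have h2 := Z_le v u
  rw [norm_sub_rev] at h2
  constructor <;> linarith

/-- the second-order term -/
noncomputable def Q (A : ι → κ → ℝ) (u : ι → ℝ) : ℝ :=
  ∑ i, ∑ j, (Real.exp (u i) / ∑ l, Real.exp (u l)) * (Real.exp (u j) / ∑ l, Real.exp (u l)) *
    ∑ k, (A i k - A j k) ^ 2

theorem G_Z (A : ι → κ → ℝ) (s : ℝ) (u : ι → ℝ) :
    |G A s Z u - Z u - s ^ 2 / 4 * Q A u| ≤ 40 * |s| ^ 3 * ∫ x, ‖T A x‖ ^ 3 ∂(gs κ) := by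
  set p : ι → ℝ := fun i => Real.exp (u i) / ∑ l, Real.exp (u l) with hp
  have hp0 : ∀ i, 0 ≤ p i := fun i => div_nonneg (Real.exp_pos _).le (sum_exp_pos u).le
  have hp1 : ∑ i, p i = 1 := by
    rw [hp, ← sum_div, div_self (sum_exp_pos u).ne']
  have hZ : ∀ v : ι → ℝ, Z (u + v) - Z u = Real.log (∑ i, p i * Real.exp (v i)) := by
    intro v
    unfold Z
    rw [← Real.log_div (sum_exp_pos (u + v)).ne' (sum_exp_pos u).ne', sum_div]
    congr 1
    refine sum_congr rfl fun i _ => ?_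
    rw [Pi.add_apply, Real.exp_add, hp]
    ring
  -- the integrands
  have i1 : ∀ x : κ → ℝ, |Z (u + s • T A x) - Z u - s * gl (fun k => ∑ i, p i * A i k) x -
      s ^ 2 / 4 * ∑ i, ∑ j, p i * p j * gl (fun k => A i k - A j k) x ^ 2| ≤
      40 * |s| ^ 3 * ‖T A x‖ ^ 3 := by
    intro x
    have h := log_sum_exp p (s • T A x) ‖s • T A x‖ hp0 hp1 (fun i => norm_le_pi_norm (s • T A x) i)
    rw [var_eq p _ hp1, ← hZ, norm_smul, mul_pow, Real.norm_eq_abs, ← mul_assoc] at h
    have e1 : ∑ i, p i * (s • T A x) i = s * gl (fun k => ∑ i, p i * A i k) x := by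
      simp only [Pi.smul_apply, smul_eq_mul, T, gl, mul_sum, sum_mul]
      rw [sum_comm]
      exact sum_congr rfl fun k _ => sum_congr rfl fun i _ => by ring
    have e2 : (∑ i, ∑ j, p i * p j * ((s • T A x) i - (s • T A x) j) ^ 2) / 2 / 2 =
        s ^ 2 / 4 * ∑ i, ∑ j, p i * p j * gl (fun k => A i k - A j k) x ^ 2 := by
      have e3 : ∀ i j, (s • T A x) i - (s • T A x) j = s * gl (fun k => A i k - A j k) x := by
        intro i j
        simp only [Pi.smul_apply, smul_eq_mul, T, gl]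
        rw [← mul_sub, ← sum_sub_distrib]
        congr 1
        exact sum_congr rfl fun k _ => by ring
      have e4 : ∑ i, ∑ j, p i * p j * ((s • T A x) i - (s • T A x) j) ^ 2 =
          s ^ 2 * ∑ i, ∑ j, p i * p j * gl (fun k => A i k - A j k) x ^ 2 := by
        rw [mul_sum]
        refine sum_congr rfl fun i _ => ?_
        rw [mul_sum]
        refine sum_congr rfl fun j _ => ?_
        rw [e3]
        ring
      rw [e4]
      ring
    rw [e1, e2] at h
    exact h
  have j1 := integrable_G A s Z_lip u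
  have j2 : Integrable (fun x => gl (fun k => ∑ i, p i * A i k) x) (gs κ) := integrable_gl _
  have j3 : Integrable (fun x => ∑ i, ∑ j, p i * p j * gl (fun k => A i k - A j k) x ^ 2)
      (gs κ) :=
    integrable_finsetSum _ fun i _ => integrable_finsetSum _ fun j _ =>
      (integrable_gl2 _).const_mul _
  have k1 : ∫ x, (Z (u + s • T A x) - Z u - s * gl (fun k => ∑ i, p i * A i k) x -
      s ^ 2 / 4 * ∑ i, ∑ j, p i * p j * gl (fun k => A i k - A j k) x ^ 2) ∂(gs κ) =
      G A s Z u - Z u - s ^ 2 / 4 * Q A u := by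
    have k2 : Integrable (fun x => Z (u + s • T A x) - Z u) (gs κ) := j1.sub (integrable_const _)
    have k3 : Integrable (fun x => Z (u + s • T A x) - Z u -
        s * gl (fun k => ∑ i, p i * A i k) x) (gs κ) := k2.sub (j2.const_mul s)
    rw [integral_sub k3 (j3.const_mul _), integral_sub k2 (j2.const_mul s),
      integral_sub j1 (integrable_const _), integral_const_mul, integral_const_mul, integral_gl,
      integral_finsetSum _ fun i _ => integrable_finsetSum _ fun j _ =>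
        (integrable_gl2 _).const_mul _]
    have e5 : ∀ i, ∫ x, ∑ j, p i * p j * gl (fun k => A i k - A j k) x ^ 2 ∂(gs κ) =
        ∑ j, p i * p j * ∑ k, (A i k - A j k) ^ 2 := by
      intro i
      rw [integral_finsetSum _ fun j _ => (integrable_gl2 _).const_mul _]
      refine sum_congr rfl fun j _ => ?_
      rw [integral_const_mul, integral_gl2]
    rw [sum_congr rfl fun i _ => e5 i]
    simp [G, Q, hp]
  rw [← k1, ← integral_const_mul, ← Real.norm_eq_abs]
  exact norm_integral_le_of_norm_le ((integrable_T_norm3 A).const_mul _)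
    (ae_of_all _ fun x => i1 x)

/-- comparison of the expected log-sum-exp -/
theorem Z_compare (A : ι → κ → ℝ) (B : ι → κ' → ℝ)
    (h : ∀ i j, ∑ k, (B i k - B j k) ^ 2 ≤ ∑ k, (A i k - A j k) ^ 2) :
    ∫ x, Z (T B x) ∂(gs κ') ≤ ∫ x, Z (T A x) ∂(gs κ) := by
  set MA := ∫ x, ‖T A x‖ ^ 3 ∂(gs κ) with hMA
  set MB := ∫ x, ‖T B x‖ ^ 3 ∂(gs κ') with hMB
  have hMA0 : 0 ≤ MA := integral_nonneg fun x => by positivity
  have hMB0 : 0 ≤ MB := integral_nonneg fun x => by positivity
  have key : ∀ s : ℝ, ∀ u, G B s Z u ≤ G A s Z u + 40 * |s| ^ 3 * (MA + MB) := by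
    intro s u
    have h1 := abs_le.1 (G_Z A s u)
    have h2 := abs_le.1 (G_Z B s u)
    have h3 : Q B u ≤ Q A u := by
      unfold Q
      refine sum_le_sum fun i _ => sum_le_sum fun j _ => mul_le_mul_of_nonneg_left (h i j) ?_
      exact mul_nonneg (div_nonneg (Real.exp_pos _).le (sum_exp_pos u).le)
        (div_nonneg (Real.exp_pos _).le (sum_exp_pos u).le)
    have h4 : s ^ 2 / 4 * Q B u ≤ s ^ 2 / 4 * Q A u :=
      mul_le_mul_of_nonneg_left h3 (by positivity)
    have h5 := h1.1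
    have h6 := h2.2
    rw [← hMA] at h5
    rw [← hMB] at h6
    nlinarith
  have step : ∀ n : ℕ, 0 < n → ∫ x, Z (T B x) ∂(gs κ') ≤
      ∫ x, Z (T A x) ∂(gs κ) + 40 * (MA + MB) * (Real.sqrt n)⁻¹ := by
    intro n hn
    have hn' : (0 : ℝ) < n := by exact_mod_cast hn
    have hs : (0 : ℝ) < Real.sqrt n := Real.sqrt_pos.2 hn'
    have h1 := compare A B (Real.sqrt n)⁻¹ Z_lip _ (key (Real.sqrt n)⁻¹) n 0
    rw [G_iter A _ Z_lip, G_iter B _ Z_lip, mul_inv_cancel₀ hs.ne'] at h1
    have e1 : G B 1 Z 0 = ∫ x, Z (T B x) ∂(gs κ') := by simp [G]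
    have e2 : G A 1 Z 0 = ∫ x, Z (T A x) ∂(gs κ) := by simp [G]
    rw [e1, e2] at h1
    have e3 : (n : ℝ) * (40 * |(Real.sqrt n)⁻¹| ^ 3 * (MA + MB)) =
        40 * (MA + MB) * (Real.sqrt n)⁻¹ := by
      rw [abs_of_pos (inv_pos.2 hs)]
      have e4 : (n : ℝ) * (Real.sqrt n)⁻¹ ^ 2 = 1 := by
        rw [inv_pow, Real.sq_sqrt hn'.le, mul_inv_cancel₀ hn'.ne']
      calc (n : ℝ) * (40 * (Real.sqrt n)⁻¹ ^ 3 * (MA + MB)) =
          40 * (MA + MB) * (Real.sqrt n)⁻¹ * ((n : ℝ) * (Real.sqrt n)⁻¹ ^ 2) := by ring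
        _ = _ := by rw [e4, mul_one]
    rw [e3] at h1
    exact h1
  have hlim : Filter.Tendsto (fun n : ℕ => ∫ x, Z (T A x) ∂(gs κ) +
      40 * (MA + MB) * (Real.sqrt n)⁻¹) Filter.atTop (nhds (∫ x, Z (T A x) ∂(gs κ) +
      40 * (MA + MB) * 0)) := by
    refine tendsto_const_nhds.add (Filter.Tendsto.const_mul _ ?_)
    exact tendsto_inv_atTop_zero.comp (Real.tendsto_sqrt_atTop.comp tendsto_natCast_atTop_atTop)
  rw [mul_zero, add_zero] at hlim
  refine ge_of_tendsto hlim ?_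
  filter_upwards [Filter.eventually_gt_atTop 0] with n hn
  exact step n hn

/-- the maximum -/
noncomputable def Mx (u : ι → ℝ) : ℝ := Finset.univ.sup' Finset.univ_nonempty u

theorem Mx_le_Z (u : ι → ℝ) : Mx u ≤ Z u := by
  refine Finset.sup'_le _ _ fun i _ => ?_
  unfold Z
  rw [Real.le_log_iff_exp_le (sum_exp_pos u)]
  exact single_le_sum (f := fun i => Real.exp (u i)) (fun i _ => (Real.exp_pos _).le) (mem_univ i)

theorem Z_le_Mx (u : ι → ℝ) : Z u ≤ Mx u + Real.log (Fintype.card ι) := by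
  have hc : (0 : ℝ) < Fintype.card ι := by exact_mod_cast Fintype.card_pos
  unfold Z
  rw [Real.log_le_iff_le_exp (sum_exp_pos u), Real.exp_add, Real.exp_log hc]
  calc ∑ i, Real.exp (u i) ≤ ∑ _i : ι, Real.exp (Mx u) :=
        sum_le_sum fun i _ => Real.exp_le_exp.2 (Finset.le_sup' u (mem_univ i))
    _ = _ := by rw [sum_const, card_univ, nsmul_eq_mul, mul_comm]

theorem Mx_lip : LipschitzWith 1 (Mx : (ι → ℝ) → ℝ) := by
  have h : ∀ u v : ι → ℝ, Mx u ≤ Mx v + ‖u - v‖ := by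
    intro u v
    refine Finset.sup'_le _ _ fun i _ => ?_
    have h1 := norm_le_pi_norm (u - v) i
    rw [Pi.sub_apply, Real.norm_eq_abs] at h1
    have h2 : v i ≤ Mx v := Finset.le_sup' v (mem_univ i)
    linarith [le_abs_self (u i - v i)]
  refine LipschitzWith.of_dist_le_mul fun u v => ?_
  rw [Real.dist_eq, NNReal.coe_one, one_mul, dist_eq_norm, abs_le]
  have h1 := h u v
  have h2 := h v u
  rw [norm_sub_rev] at h2
  constructor <;> linarith

theorem Mx_smul (b : ℝ) (hb : 0 ≤ b) (u : ι → ℝ) : Mx (b • u) = b * Mx u := by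
  refine le_antisymm ?_ ?_
  · refine Finset.sup'_le _ _ fun i _ => ?_
    exact mul_le_mul_of_nonneg_left (Finset.le_sup' u (mem_univ i)) hb
  · obtain ⟨i, _, hi⟩ := Finset.exists_mem_eq_sup' (Finset.univ_nonempty (α := ι)) u
    have : Mx u = u i := hi
    rw [this]
    exact Finset.le_sup' (b • u) (mem_univ i)

theorem integrable_lipT (A : ι → κ → ℝ) {f : (ι → ℝ) → ℝ} (hf : LipschitzWith 1 f) :
    Integrable (fun x => f (T A x)) (gs κ) := by
  have := integrable_G A 1 hf 0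
  simpa using this

theorem Mx_compare (A : ι → κ → ℝ) (B : ι → κ' → ℝ)
    (h : ∀ i j, ∑ k, (B i k - B j k) ^ 2 ≤ ∑ k, (A i k - A j k) ^ 2) :
    ∫ x, Mx (T B x) ∂(gs κ') ≤ ∫ x, Mx (T A x) ∂(gs κ) := by
  have step : ∀ n : ℕ, 0 < n → ∫ x, Mx (T B x) ∂(gs κ') ≤
      ∫ x, Mx (T A x) ∂(gs κ) + Real.log (Fintype.card ι) * (n : ℝ)⁻¹ := by
    intro n hn
    have hn' : (0 : ℝ) < n := by exact_mod_cast hn
    have hA : ∀ x, T (fun i k => (n : ℝ) * A i k) x = (n : ℝ) • T A x := by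
      intro x
      funext i
      simp only [T, gl, Pi.smul_apply, smul_eq_mul, mul_sum]
      exact sum_congr rfl fun k _ => by ring
    have hB : ∀ x, T (fun i k => (n : ℝ) * B i k) x = (n : ℝ) • T B x := by
      intro x
      funext i
      simp only [T, gl, Pi.smul_apply, smul_eq_mul, mul_sum]
      exact sum_congr rfl fun k _ => by ring
    have h1 := Z_compare (fun i k => (n : ℝ) * A i k) (fun i k => (n : ℝ) * B i k) (by
      intro i j
      have e : ∀ {τ : Type} [Fintype τ] (C : ι → τ → ℝ),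
          ∑ k, ((n : ℝ) * C i k - (n : ℝ) * C j k) ^ 2 =
          (n : ℝ) ^ 2 * ∑ k, (C i k - C j k) ^ 2 := by
        intro τ _ C
        rw [mul_sum]
        exact sum_congr rfl fun k _ => by ring
      rw [e A, e B]
      exact mul_le_mul_of_nonneg_left (h i j) (by positivity))
    have h2 : (n : ℝ) * ∫ x, Mx (T B x) ∂(gs κ') ≤
        ∫ x, Z (T (fun i k => (n : ℝ) * B i k) x) ∂(gs κ') := by
      rw [← integral_const_mul]
      refine integral_mono ((integrable_lipT B Mx_lip).const_mul _) (integrable_lipT _ Z_lip)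
        fun x => ?_
      simp only
      rw [hB, ← Mx_smul _ hn'.le]
      exact Mx_le_Z _
    have h3 : ∫ x, Z (T (fun i k => (n : ℝ) * A i k) x) ∂(gs κ) ≤
        (n : ℝ) * ∫ x, Mx (T A x) ∂(gs κ) + Real.log (Fintype.card ι) := by
      have e : (n : ℝ) * ∫ x, Mx (T A x) ∂(gs κ) + Real.log (Fintype.card ι) =
          ∫ x, ((n : ℝ) * Mx (T A x) + Real.log (Fintype.card ι)) ∂(gs κ) := by
        rw [integral_add ((integrable_lipT A Mx_lip).const_mul _) (integrable_const _),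
          integral_const_mul]
        simp
      rw [e]
      refine integral_mono (integrable_lipT _ Z_lip)
        (((integrable_lipT A Mx_lip).const_mul _).add (integrable_const _)) fun x => ?_
      simp only
      rw [hA, ← Mx_smul _ hn'.le]
      exact Z_le_Mx _
    have h4 := h2.trans (h1.trans h3)
    have h5 : (n : ℝ) * (∫ x, Mx (T A x) ∂(gs κ) + Real.log (Fintype.card ι) * (n : ℝ)⁻¹) =
        (n : ℝ) * ∫ x, Mx (T A x) ∂(gs κ) + Real.log (Fintype.card ι) := by
      field_simp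
    rw [← h5] at h4
    exact le_of_mul_le_mul_left h4 hn'
  have hlim : Filter.Tendsto (fun n : ℕ => ∫ x, Mx (T A x) ∂(gs κ) +
      Real.log (Fintype.card ι) * (n : ℝ)⁻¹) Filter.atTop (nhds (∫ x, Mx (T A x) ∂(gs κ) +
      Real.log (Fintype.card ι) * 0)) :=
    tendsto_const_nhds.add (Filter.Tendsto.const_mul _
      (tendsto_inv_atTop_zero.comp tendsto_natCast_atTop_atTop))
  rw [mul_zero, add_zero] at hlim
  refine ge_of_tendsto hlim ?_
  filter_upwards [Filter.eventually_gt_atTop 0] with n hn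
  exact step n hn

end Pool.Agent.Helper51.Bmoa

namespace Pool.Agent.Helper51.Bmoa

open MeasureTheory ProbabilityTheory

/-- Sudakov-Fernique comparison. -/
theorem sudakov_fernique {ι κ κ' : Type} [Fintype ι] [Nonempty ι] [Fintype κ] [Fintype κ']
    (A : ι → κ → ℝ) (B : ι → κ' → ℝ)
    (h : ∀ i j, ∑ k, (B i k - B j k) ^ 2 ≤ ∑ k, (A i k - A j k) ^ 2) :
    ∫ x, Finset.univ.sup' Finset.univ_nonempty (fun i => gl (B i) x) ∂(gs κ') ≤
      ∫ x, Finset.univ.sup' Finset.univ_nonempty (fun i => gl (A i) x) ∂(gs κ) :=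
  Pool.Agent.Helper51.Bmoa.Mx_compare A B h

end Pool.Agent.Helper51.Bmoa
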